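import Mathlib
import Pool.Agent.V11208.TR.Rank4

set_option autoImplicit false

/-!
# MP_f68ac8_nt: tame 2-adic representations of rank at most four

Let `m ≥ 2` and let `S` be a finite set of odd primes, none of them `1` modulo `2 ^ (m + 1)`. Let
`ρ : Gal(ℚbar/ℚ) → GL_n(O)` be a continuous representation, with coefficients in the ring of integers
`O` of a finite extension of `ℚ_2` (or in any discrete valuation ring of characteristic zero and residue
characteristic two), which is unramified outside `S` (so also at `2`) and trivial modulo `2 ^ m` on the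
inertia groups at the primes in `S`. Such representations are de Rham with Hodge-Tate weights zero, and
the conjecture of Fontaine and Mazur predicts that the image of `ρ` is finite; then `ρ` is trivial.

* If `n = 2`, `ρ` is trivial: there is NO condition on the number of the primes in `S` or on their
  quadratic residue symbols.
* If `n = 3` or `n = 4`, `ρ` is trivial if at most five primes in `S` are `1` modulo `2 ^ m`, with no
  condition on their quadratic residue symbols. More generally it suffices that every set `J` of at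
  least six of these primes is loose: some `l ∈ J` is a quadratic residue (or: a nonresidue) modulo all
  the other elements of `J` but at most one, or the graph of the pairs of residues in `J` is
  disconnected or has a disconnected complement.

If `S` has at least five elements `≡ 5 mod 8`, the Galois group of the maximal 2-extension of `ℚ`
unramified outside `S` is infinite (Golod and Shafarevich). For five primes whose residue graph is a
pentagon the starting criterion `TameAllRanks` does not apply in any rank.

Proof. One has to exclude nonzero nilpotent matrices `M l`, `l ∈ J`, over a field of characteristic two,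
such that the commutator of `X l = ∑ j, λ l j • M j` and `M l` is `M l`. In rank two there are none, since
`X l` has trace zero, hence equal diagonal entries (`Pool.Agent.V11161.BH.noTuple_two` of helper161). In
rank three and four and for five primes only the pentagon has to be excluded. Let `e₂` and `e₃` be the
coefficients of the characteristic polynomial. The relation implies `e₃(X l) = 1 + e₂(X l)` (in rank at
most four), `tr (M l ^ 2 X l) = 0` and `∑ M l = 0`; the first identity, summed over the five vertices,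
shows that the sum of the `tr (M l M (l + 2))` is one; this sum is equal to the sum of the
`tr ([M (l - 1), M l] M (l + 1))`, and this is zero by the sum of the five identities
`e₃(M l + M (l + 1)) = e₃(M (l + 2) + M (l + 3) + M (l + 4))`.
-/

namespace Pool.Agent.Results.MP_f68ac8_nt.RankAtMostFour

open NumberField IsLocalRing

/-- `ρ` is unramified at all primes that do not lie above a prime number in `S` -/
def UnramifiedOutside {n : ℕ} {A : Type} [CommRing A] (S : Finset ℕ)
    (ρ : Gal(AlgebraicClosure ℚ/ℚ) →* GL (Fin n) A) : Prop :=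
  ∀ P : Ideal (𝓞 (AlgebraicClosure ℚ)), P.IsMaximal →
    (∀ l ∈ S, (l : 𝓞 (AlgebraicClosure ℚ)) ∉ P) →
    ∀ τ : Gal(AlgebraicClosure ℚ/ℚ), (∀ x : 𝓞 (AlgebraicClosure ℚ), τ • x - x ∈ P) → ρ τ = 1

/-- the inertia groups at the primes above a prime number in `S` act trivially modulo `2 ^ m` -/
def InertiaTrivialMod {n : ℕ} {A : Type} [CommRing A] (m : ℕ) (S : Finset ℕ)
    (ρ : Gal(AlgebraicClosure ℚ/ℚ) →* GL (Fin n) A) : Prop :=
  ∀ P : Ideal (𝓞 (AlgebraicClosure ℚ)), P.IsMaximal →
    (∃ l ∈ S, (l : 𝓞 (AlgebraicClosure ℚ)) ∈ P) →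
    ∀ τ : Gal(AlgebraicClosure ℚ/ℚ), (∀ x : 𝓞 (AlgebraicClosure ℚ), τ • x - x ∈ P) →
      ∀ i j, (2 : A) ^ m ∣ ((ρ τ : Matrix (Fin n) (Fin n) A) - 1) i j

/-- Every continuous representation of dimension `n` over any discrete valuation ring `A` of
characteristic zero and residue characteristic two, which is unramified outside `S` and trivial modulo
`2 ^ m` on the inertia groups at the primes in `S`, is trivial. -/
def TameTrivial (n m : ℕ) (S : Finset ℕ) : Prop :=
  ∀ (A : Type) [CommRing A] [IsDomain A] [IsDiscreteValuationRing A] [CharZero A]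
    [TopologicalSpace A], IsAdic (maximalIdeal A) → (2 : A) ∈ maximalIdeal A →
    ∀ ρ : Gal(AlgebraicClosure ℚ/ℚ) →* GL (Fin n) A, Continuous ρ → UnramifiedOutside S ρ →
      InertiaTrivialMod m S ρ → ∀ g, ρ g = 1

/-- Some `l ∈ J` is a quadratic residue modulo all other elements of `J` but at most one, or a
nonresidue modulo all but at most one, or `J` has a nonempty proper subset `K` such that all `l ∈ K`
are residues modulo all `j ∈ J \ K`, or all are nonresidues. -/
def Loose (J : Finset ℕ) : Prop :=
  (∃ l ∈ J, {j : ℕ | j ∈ J ∧ j ≠ l ∧ ¬ IsSquare (l : ZMod j)}.Subsingleton) ∨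
  (∃ l ∈ J, {j : ℕ | j ∈ J ∧ j ≠ l ∧ IsSquare (l : ZMod j)}.Subsingleton) ∨
  ∃ K : Finset ℕ, K ⊂ J ∧ K.Nonempty ∧
    ((∀ l ∈ K, ∀ j ∈ J, j ∉ K → IsSquare (l : ZMod j)) ∨
      ∀ l ∈ K, ∀ j ∈ J, j ∉ K → ¬ IsSquare (l : ZMod j))

lemma tf {A : Type} [CommRing A] [IsDomain A] [CharZero A] (m : ℕ) (a : A) (h : (2 : A) ^ (m + 1) * a = 0) :
    (2 : A) ^ m * a = 0 := by
  rcases mul_eq_zero.1 h with h1 | h1
  · exact absurd h1 (pow_ne_zero _ two_ne_zero)
  · rw [h1, mul_zero]

theorem result (m : ℕ) (hm : 2 ≤ m) (S : Finset ℕ)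
    (hS : ∀ l ∈ S, l.Prime ∧ l ≠ 2 ∧ ¬ 2 ^ (m + 1) ∣ l - 1) :
    TameTrivial 2 m S ∧
    ((S.filter fun l => 2 ^ m ∣ l - 1).card ≤ 5 → TameTrivial 3 m S ∧ TameTrivial 4 m S) ∧
    ((∀ J : Finset ℕ, J ⊆ S → (∀ l ∈ J, 2 ^ m ∣ l - 1) → 6 ≤ J.card → Loose J) →
      TameTrivial 3 m S ∧ TameTrivial 4 m S) := by
  have h3 : (∀ J : Finset ℕ, J ⊆ S → (∀ l ∈ J, 2 ^ m ∣ l - 1) → 6 ≤ J.card → Loose J) →
      TameTrivial 3 m S ∧ TameTrivial 4 m S := by
    intro hJ
    constructor
    · intro A _ _ _ _ _ hA h2 ρ hρ hur hI
      refine (Pool.Agent.V11208.TR.rank_three_noeth m hm S hS hJ A hA h2 ρ hρ hur ?_).2 (tf m)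
      intro P hP hl τ hτ i j
      have h5 := hI P hP hl τ hτ i j
      rw [Nat.cast_ofNat]
      exact h5
    · intro A _ _ _ _ _ hA h2 ρ hρ hur hI
      refine (Pool.Agent.V11208.TR.rank_four_noeth m hm S hS hJ A hA h2 ρ hρ hur ?_).2 (tf m)
      intro P hP hl τ hτ i j
      have h5 := hI P hP hl τ hτ i j
      rw [Nat.cast_ofNat]
      exact h5
  refine ⟨?_, fun hc => h3 fun J hJS hJm h6 => ?_, h3⟩
  · intro A _ _ _ _ _ hA h2 ρ hρ hur hI
    refine (Pool.Agent.V11208.TR.rank_two_noeth m hm S hS A hA h2 ρ hρ hur ?_).2 (tf m)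
    intro P hP hl τ hτ i j
    have h5 := hI P hP hl τ hτ i j
    rw [Nat.cast_ofNat]
    exact h5
  · exfalso
    have h4 : J ⊆ S.filter fun l => 2 ^ m ∣ l - 1 := fun l hl =>
      Finset.mem_filter.2 ⟨hJS hl, hJm l hl⟩
    have h5 := Finset.card_le_card h4
    omega

end Pool.Agent.Results.MP_f68ac8_nt.RankAtMostFour
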