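import Pool.Agent.V11270.FR.Main

/-!
# One common Frobenius eigenvalue, up to roots of unity, at a sparse set of primes

Let `f` be any function. There is a sequence `T` of prime numbers, growing faster than prescribed by `f`, all of
which split completely in an infinite unramified extension `L` of a real quadratic field, such that for every
number field `K` and every prime number `p`:

1. if two continuous representations `ρ : G_K → GL_m(ℚ_p)` and `ρ' : G_K → GL_n(ℚ_p)`, unramified outside a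
finite set of primes, are such that at the places of degree one above almost all `T i` some eigenvalue of
`ρ(Frob)` is a root of unity times some eigenvalue of `ρ'(Frob)`, then there is a finite extension `K'` of `K`
such that `ρ(σ)` and `ρ'(σ)` have a common eigenvalue for ALL `σ` in `G_K'`;

2. if in addition `m = n = 2` and `ρ` is absolutely irreducible on every open subgroup (for example `ρ` is given by
an elliptic curve without complex multiplication), then `ρ'` is isomorphic to the twist of `ρ` by a character of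
finite order (in particular, `ρ'` comes from geometry if `ρ` does).

Nothing is assumed at the places above `p`.

Proof.  The tensor product `X` of `ρ` and the contragredient of `ρ'` has a root of unity among its eigenvalues at
the Frobenius elements.  A `p`-adic estimate for `det (X ^ N - 1)`, together with the approximation of powers of
arbitrary elements of `G_K` by the Frobenius elements at `T i` (starting library `Y802.TS`), shows that
`det (X(σ) - 1) = 0` on an open subgroup.  For `m = n = 2` the traces of `ρ` and `ρ'` agree on the commutator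
subgroup of this subgroup, whose image under `ρ` spans all matrices (Burnside, Clifford), so `ρ'` is a twist of
`ρ` by a character (Skolem-Noether), and this character is trivial on the open subgroup, by a second look at the
traces on its cosets.
-/

set_option autoImplicit false

namespace Pool.Agent.Results.MP_f68ac8_nt.SharedEigenvalue

open NumberField IntermediateField Module Polynomial

attribute [local instance 10] DivisionRing.toRatAlgebra

/-- the absolute Galois group of `ℚ` -/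
abbrev GQ : Type := Gal(AlgebraicClosure ℚ/ℚ)

/-- the ring of all algebraic integers -/
abbrev ZBar : Type := 𝓞 (AlgebraicClosure ℚ)

/-- `τ` lies in the inertia group at the maximal ideal `P` of the ring of all algebraic integers -/
def Inertia (P : Ideal ZBar) (τ : GQ) : Prop := ∀ x : ZBar, τ • x - x ∈ P

/-- `σ` is a (geometric) Frobenius element at the maximal ideal `P` above the prime number `q`: it induces
the inverse of `x ↦ x ^ q` on the residue field -/
def Frobenius (q : ℕ) (P : Ideal ZBar) (σ : GQ) : Prop := ∀ x : ZBar, x - (σ • x) ^ q ∈ P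

/-- `L` is a totally real Galois extension of infinite degree of the real quadratic field `k`, unramified at
all finite places, and a union of finite extensions of `ℚ` whose degrees are powers of two -/
structure UnramifiedTower (k L : IntermediateField ℚ (AlgebraicClosure ℚ)) : Prop where
  quadratic : finrank ℚ k = 2 ∧ ∃ s ∈ k,
    s ^ 2 = ((17 * 41 * 73 * 89 * 97 * 113 * 137 * 193 * 233 * 241 : ℕ) : AlgebraicClosure ℚ)
  le : k ≤ L
  infinite : ¬ FiniteDimensional ℚ L
  galois : ∀ σ : GQ, (∀ x ∈ k, σ x = x) → ∀ y ∈ L, σ y ∈ L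
  unramified : ∀ q : ℕ, q.Prime → ∀ P : Ideal ZBar, P.IsMaximal → (q : ZBar) ∈ P → ∀ τ : GQ,
    (∀ x ∈ k, τ x = x) → Inertia P τ → ∀ y ∈ L, τ y = y
  real : ∀ (φ : L →+* ℂ) (y : L), (φ y).im = 0
  two : ∀ y ∈ L, ∃ m : ℕ, finrank ℚ ℚ⟮y⟯ = 2 ^ m

/-- the prime number `q` is unramified and splits completely in `L`: all inertia elements and all Frobenius
elements above `q` fix `L` -/
def SplitsCompletely (q : ℕ) (L : IntermediateField ℚ (AlgebraicClosure ℚ)) : Prop :=
  ∀ P : Ideal ZBar, P.IsMaximal → (q : ZBar) ∈ P → ∀ σ : GQ, Inertia P σ ∨ Frobenius q P σ →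
    ∀ y ∈ L, σ y = y

section rep

variable {K : IntermediateField ℚ (AlgebraicClosure ℚ)} {p : ℕ} [Fact p.Prime] {m n : ℕ}

/-- `ρ` is unramified outside a finite set of primes -/
def AlmostUnramified (ρ : K.fixingSubgroup →* GL (Fin n) ℚ_[p]) : Prop :=
  ∃ S : Finset ℕ, ∀ q : ℕ, q.Prime → q ∉ S → ∀ P : Ideal ZBar, P.IsMaximal → (q : ZBar) ∈ P →
    ∀ τ : K.fixingSubgroup, Inertia P τ → ρ τ = 1

/-- `z` is an eigenvalue of the matrix `A`, in an algebraic closure of the field of `p`-adic numbers -/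
def Eigenvalue (z : AlgebraicClosure ℚ_[p]) (A : Matrix (Fin n) (Fin n) ℚ_[p]) : Prop :=
  aeval z A.charpoly = 0

/-- at the places of `K` of degree one above almost all `T i`, some eigenvalue of the Frobenius elements under
`ρ` is a root of unity times some eigenvalue under `ρ'` -/
def SharedAtAlmostAll (T : ℕ → ℕ) (ρ : K.fixingSubgroup →* GL (Fin m) ℚ_[p])
    (ρ' : K.fixingSubgroup →* GL (Fin n) ℚ_[p]) : Prop :=
  ∃ i₀ : ℕ, ∀ i ≥ i₀, ∀ P : Ideal ZBar, P.IsMaximal → (T i : ZBar) ∈ P →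
    ∀ σ : K.fixingSubgroup, Frobenius (T i) P σ → ∃ z w : AlgebraicClosure ℚ_[p],
      Eigenvalue z (ρ σ : Matrix (Fin m) (Fin m) ℚ_[p]) ∧
      Eigenvalue w (ρ' σ : Matrix (Fin n) (Fin n) ℚ_[p]) ∧ ∃ a : ℕ, 0 < a ∧ z ^ a = w ^ a

/-- over no finite extension `K'` of `K` do the elements of `G_K'` preserve a line of the plane over an algebraic
closure of the field of `p`-adic numbers -/
def StronglyIrreducible (ρ : K.fixingSubgroup →* GL (Fin 2) ℚ_[p]) : Prop :=
  ∀ K' : IntermediateField ℚ (AlgebraicClosure ℚ), FiniteDimensional ℚ K' → K ≤ K' →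
    ¬ ∃ v : Fin 2 → AlgebraicClosure ℚ_[p], v ≠ 0 ∧ ∀ σ : K.fixingSubgroup,
      (∀ y ∈ K', (σ : GQ) y = y) → ∃ c : AlgebraicClosure ℚ_[p],
        ((ρ σ : Matrix (Fin 2) (Fin 2) ℚ_[p]).map
          (algebraMap ℚ_[p] (AlgebraicClosure ℚ_[p]))).mulVec v = c • v

end rep

/-- **Main result.** -/
theorem result (f : ℕ → ℕ) :
    ∃ (T : ℕ → ℕ) (k L : IntermediateField ℚ (AlgebraicClosure ℚ)),
      (∀ i, (T i).Prime ∧ T i < T (i + 1) ∧ f (T i) < T (i + 1)) ∧
      UnramifiedTower k L ∧ (∀ i, SplitsCompletely (T i) L) ∧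
      (∀ (K : IntermediateField ℚ (AlgebraicClosure ℚ)), FiniteDimensional ℚ K →
        ∀ (p : ℕ) [Fact p.Prime] (m n : ℕ) (ρ : K.fixingSubgroup →* GL (Fin m) ℚ_[p])
          (ρ' : K.fixingSubgroup →* GL (Fin n) ℚ_[p]), Continuous ρ → Continuous ρ' →
          AlmostUnramified ρ → AlmostUnramified ρ' → SharedAtAlmostAll T ρ ρ' →
          ∃ K' : IntermediateField ℚ (AlgebraicClosure ℚ), FiniteDimensional ℚ K' ∧ K ≤ K' ∧
            ∀ σ : K.fixingSubgroup, (∀ y ∈ K', (σ : GQ) y = y) → ∃ z : AlgebraicClosure ℚ_[p],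
              Eigenvalue z (ρ σ : Matrix (Fin m) (Fin m) ℚ_[p]) ∧
              Eigenvalue z (ρ' σ : Matrix (Fin n) (Fin n) ℚ_[p])) ∧
      (∀ (K : IntermediateField ℚ (AlgebraicClosure ℚ)), FiniteDimensional ℚ K →
        ∀ (p : ℕ) [Fact p.Prime] (ρ ρ' : K.fixingSubgroup →* GL (Fin 2) ℚ_[p]),
          Continuous ρ → Continuous ρ' → AlmostUnramified ρ → AlmostUnramified ρ' →
          StronglyIrreducible ρ → SharedAtAlmostAll T ρ ρ' →
          ∃ (Q : GL (Fin 2) ℚ_[p]) (ε : K.fixingSubgroup →* ℚ_[p]ˣ),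
            (∃ N : ℕ, 0 < N ∧ ∀ σ, ε σ ^ N = 1) ∧
            (∃ K' : IntermediateField ℚ (AlgebraicClosure ℚ), FiniteDimensional ℚ K' ∧ K ≤ K' ∧
              ∀ σ : K.fixingSubgroup, (∀ y ∈ K', (σ : GQ) y = y) → ε σ = 1) ∧
            ∀ σ : K.fixingSubgroup, (ρ' σ : Matrix (Fin 2) (Fin 2) ℚ_[p]) =
              (ε σ : ℚ_[p]) • ((Q : Matrix (Fin 2) (Fin 2) ℚ_[p]) *
                (ρ σ : Matrix (Fin 2) (Fin 2) ℚ_[p]) *
                ((Q⁻¹ : GL (Fin 2) ℚ_[p]) : Matrix (Fin 2) (Fin 2) ℚ_[p]))) := by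
  obtain ⟨T, k, L, hT1, hT2, htow, hspread⟩ := Pool.Agent.V11270.FR.main_spread f
  -- a field inside an open subgroup
  have hfield : ∀ (K : IntermediateField ℚ (AlgebraicClosure ℚ)), FiniteDimensional ℚ K →
      ∀ U : Subgroup GQ, IsOpen (U : Set GQ) → ∃ K' : IntermediateField ℚ (AlgebraicClosure ℚ),
        FiniteDimensional ℚ K' ∧ K ≤ K' ∧ ∀ σ : GQ, (∀ y ∈ K', σ y = y) → σ ∈ U := by
    intro K hK U hU
    have h1 : (U : Set GQ) ∈ nhds (1 : GQ) := hU.mem_nhds U.one_mem
    rw [krullTopology_mem_nhds_one_iff] at h1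
    obtain ⟨E, hE, hEU⟩ := h1
    have : FiniteDimensional ℚ E := hE
    refine ⟨K ⊔ E, inferInstance, le_sup_left, fun σ hσ => hEU ?_⟩
    rw [SetLike.mem_coe, IntermediateField.mem_fixingSubgroup_iff]
    intro x hx
    exact hσ x ((le_sup_right : E ≤ K ⊔ E) hx)
  have hsp : ∀ (K : IntermediateField ℚ (AlgebraicClosure ℚ)), FiniteDimensional ℚ K →
        ∀ (p : ℕ) [Fact p.Prime] (m n : ℕ) (ρ : K.fixingSubgroup →* GL (Fin m) ℚ_[p])
          (ρ' : K.fixingSubgroup →* GL (Fin n) ℚ_[p]), Continuous ρ → Continuous ρ' →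
          AlmostUnramified ρ → AlmostUnramified ρ' → SharedAtAlmostAll T ρ ρ' →
          ∃ U : Subgroup GQ, IsOpen (U : Set GQ) ∧ U ≤ K.fixingSubgroup ∧
            ∀ γ ∈ U, ∀ h : γ ∈ K.fixingSubgroup, Pool.Agent.V11270.FR.Share (AlgebraicClosure ℚ_[p])
              (ρ ⟨γ, h⟩ : Matrix (Fin m) (Fin m) ℚ_[p])
              (ρ' ⟨γ, h⟩ : Matrix (Fin n) (Fin n) ℚ_[p]) := by
    intro K hK p hp m n ρ ρ' hρ hρ' hS hS' hsh
    obtain ⟨S, hS⟩ := hS
    obtain ⟨S', hS'⟩ := hS'
    obtain ⟨i0, hi0⟩ := hsh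
    exact hspread K.fixingSubgroup K.fixingSubgroup_isOpen p m n ρ ρ' hρ hρ'
      ⟨S, fun q hq hqS P hP hqP τ hτ hτP => hS q hq hqS P hP hqP ⟨τ, hτ⟩ hτP⟩
      ⟨S', fun q hq hqS P hP hqP τ hτ hτP => hS' q hq hqS P hP hqP ⟨τ, hτ⟩ hτP⟩
      ⟨i0, fun i hi P hP hTP σ hσ hσP => by
        obtain ⟨z, w, hz, hw, a, ha, hzw⟩ := hi0 i hi P hP hTP ⟨σ, hσ⟩ hσP
        exact ⟨z, w, a, ha.ne', hz, hw, hzw⟩⟩
  refine ⟨T, k, L, fun i => ⟨hT1 i, ?_, ?_⟩, ⟨⟨htow.rank, htow.sqrt⟩, htow.le, htow.inf, htow.galois,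
    htow.unr, htow.real, htow.two⟩, ?_, ?_, ?_⟩
  · have := hT2 i
    omega
  · have := hT2 i
    have := (hT1 i).pos
    omega
  · intro i P hP hTP σ hσ
    rcases hσ with hσ | hσ
    · exact htow.unrT i P hP hTP σ hσ
    · exact htow.split i P hP hTP σ hσ
  · intro K hK p hp m n ρ ρ' hρ hρ' hS hS' hsh
    obtain ⟨U, hU, hUK, h1⟩ := hsp K hK p m n ρ ρ' hρ hρ' hS hS' hsh
    obtain ⟨K', hK', hKK', h2⟩ := hfield K hK U hU
    refine ⟨K', hK', hKK', fun σ hσ => ?_⟩
    exact h1 σ.1 (h2 σ.1 hσ) σ.2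
  · intro K hK p hp ρ ρ' hρ hρ' hS hS' hirr hsh
    obtain ⟨U, hU, hUK, h1⟩ := hsp K hK p 2 2 ρ ρ' hρ hρ' hS hS' hsh
    obtain ⟨Q, ε, h2, h3⟩ := Pool.Agent.V11270.FR.main_twist K.fixingSubgroup_isOpen p ρ ρ' hρ (by
      intro V hV hline
      obtain ⟨v, hv, hline⟩ := hline
      have hV' : IsOpen ((V.map K.fixingSubgroup.subtype : Subgroup GQ) : Set GQ) := by
        rw [Subgroup.coe_map]
        exact K.fixingSubgroup_isOpen.isOpenEmbedding_subtypeVal.isOpenMap _ hV
      obtain ⟨K', hK', hKK', h2⟩ := hfield K hK _ hV'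
      apply hirr K' hK' hKK'
      refine ⟨v, hv, fun σ hσ => ?_⟩
      obtain ⟨τ, hτ, hτσ⟩ := h2 σ.1 hσ
      have h3 : τ = σ := Subtype.ext hτσ
      rw [h3] at hτ
      exact hline σ hτ) U hU hUK h1
    have hcore := Pool.Agent.Y802.TS.core_open hU
    refine ⟨Q, ε, ?_, ?_, h3⟩
    · have hfi : U.normalCore.FiniteIndex := Pool.Agent.Y802.TS.finiteIndex_of_open hcore
      have hn : U.normalCore.Normal := Subgroup.normalCore_normal _
      refine ⟨U.normalCore.index, Nat.pos_of_ne_zero hfi.index_ne_zero, fun σ => ?_⟩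
      have h4 : (σ.1 : GQ) ^ U.normalCore.index ∈ U.normalCore := Subgroup.pow_index_mem _ _
      have h5 := h2 _ h4 (σ ^ U.normalCore.index).2
      rw [← map_pow]
      exact h5
    · obtain ⟨K', hK', hKK', h4⟩ := hfield K hK _ hcore
      exact ⟨K', hK', hKK', fun σ hσ => h2 σ.1 (h4 σ.1 hσ) σ.2⟩

end Pool.Agent.Results.MP_f68ac8_nt.SharedEigenvalue
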