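import Pool.Agent.V11248.FM.Cyd

/-!
# Representations trivial modulo `p ^ m` are unramified at sparsely linked places

Let `K` be any number field, `p` a prime, `p ^ m > 2`, `S` a finite set of finite places `v` of `K`
whose norms are congruent to `1` modulo `p ^ m`, but not modulo `p ^ (m + 1)`, and `E` an arbitrary
set of finite places, which may contain the places above `p`.
Let `ρ : Gal(Kbar/K) → GL_n(A)` be a continuous representation of any dimension, trivial modulo
`p ^ m`, over a Noetherian local ring `A` in which `p` is a nonunit and not a zero divisor (for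
example the ring of integers of a finite extension of `ℚ_p`), which is unramified at all places
outside `S ∪ E` that divide `p` or have norm congruent to `1` modulo `p ^ m` (nothing is assumed at
the other places). Suppose that every nonempty subset `J` of `S` is sparsely linked: there are `v` in
`J` and `w` in `J`, or `w` in `E` prime to `p`, such that `v` splits completely in all extensions of
`K` with group `ℤ/p` that are unramified outside `(J ∪ E) \ {v, w}` (or another such condition
holds, see `RankOne`). Then `ρ` is unramified outside `E`.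

So `ρ` is trivial if `K` has no extension with group `ℤ/p` that is unramified outside `E`
(for `E = ∅` this means that `p` does not divide the class number of `K`), and `ρ` is abelian if there
is at most one such extension; if moreover `E` contains all places above `p` then `ρ` factors through
the cyclotomic `ℤ_p`-extension of `K`.
-/

set_option autoImplicit false

open NumberField IsDedekindDomain IsLocalRing

namespace Pool.Agent.Results.MP_f68ac8_nt.TameNumberFields

/-- the absolute Galois group of `K`, with the Krull topology -/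
abbrev AbsGal (K : Type) [Field K] : Type := Gal(AlgebraicClosure K/K)

/-- the ring of all algebraic integers -/
abbrev ZBar (K : Type) [Field K] : Type := 𝓞 (AlgebraicClosure K)

section
variable {K : Type} [Field K] [NumberField K]

/-- the norm of the finite place `v`: the number of elements of its residue field -/
noncomputable def norm (v : HeightOneSpectrum (𝓞 K)) : ℕ := Ideal.absNorm v.asIdeal

/-- the finite place `v` divides `p` -/
def Divides (v : HeightOneSpectrum (𝓞 K)) (p : ℕ) : Prop := (p : 𝓞 K) ∈ v.asIdeal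

/-- `P` is a maximal ideal of the ring of all algebraic integers above the finite place `v` -/
def Above (P : Ideal (ZBar K)) (v : HeightOneSpectrum (𝓞 K)) : Prop :=
  P.IsMaximal ∧ P.comap (algebraMap (𝓞 K) (ZBar K)) = v.asIdeal

/-- `τ` lies in the inertia group at the ideal `P` of the ring of all algebraic integers -/
def Inertia (P : Ideal (ZBar K)) (τ : AbsGal K) : Prop := ∀ x : ZBar K, τ • x - x ∈ P

/-- `σ` is a Frobenius element at the finite place `v` -/
def Frobenius (v : HeightOneSpectrum (𝓞 K)) (σ : AbsGal K) : Prop :=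
  ∃ P : Ideal (ZBar K), Above P v ∧ ∀ x : ZBar K, σ • x - x ^ norm v ∈ P

/-- the homomorphism `f` is unramified at the finite place `v` -/
def UnramifiedAt {G : Type} [Group G] (f : AbsGal K →* G) (v : HeightOneSpectrum (𝓞 K)) : Prop :=
  ∀ P : Ideal (ZBar K), Above P v → ∀ τ : AbsGal K, Inertia P τ → f τ = 1

/-- The homomorphism `χ` from the absolute Galois group of `K` to `ℤ/p` has open kernel, is
unramified at all finite places not in `D` and trivial on all complex conjugations (the elements of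
order two). Such homomorphisms `χ ≠ 1` correspond to extensions of `K` with group `ℤ/p` that are
unramified at all finite places not in `D` and at the real places. -/
structure UnramifiedOutside (p : ℕ) (D : Set (HeightOneSpectrum (𝓞 K)))
    (χ : AbsGal K →* Multiplicative (ZMod p)) : Prop where
  open_kernel : IsOpen (χ.ker : Set (AbsGal K))
  finite : ∀ v : HeightOneSpectrum (𝓞 K), v ∉ D → UnramifiedAt χ v
  real : ∀ c : AbsGal K, c * c = 1 → χ c = 1

/-- There are `v` in `J` and `w` in `J`, or `w` in `E` not dividing `p`, such that `v` splits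
completely in all extensions of `K` with group `ℤ/p` that are unramified outside
`(J ∪ E) \ {v, w}`. (The case `w = v` is allowed.) -/
def SparselyLinked (p : ℕ) (E : Set (HeightOneSpectrum (𝓞 K)))
    (J : Finset (HeightOneSpectrum (𝓞 K))) : Prop :=
  ∃ v ∈ J, ∃ w : HeightOneSpectrum (𝓞 K), (w ∈ J ∨ w ∈ E ∧ ¬ Divides w p) ∧
    ∀ χ : AbsGal K →* Multiplicative (ZMod p), UnramifiedOutside p ((↑J ∪ E) \ {v, w}) χ →
      ∀ σ : AbsGal K, Frobenius v σ → χ σ = 1

/-- There are a nonempty subset `L` of `J` and an element `h` of the absolute Galois group on which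
all homomorphisms to `ℤ/p` unramified outside `(J ∪ E) \ L` are trivial, such that for `v` in `L`
every homomorphism to `ℤ/p` that is unramified outside `(J ∪ E) \ {v}` and trivial on `h` is
trivial on the Frobenius elements at `v`. -/
def RankOne (p : ℕ) (E : Set (HeightOneSpectrum (𝓞 K)))
    (J : Finset (HeightOneSpectrum (𝓞 K))) : Prop :=
  ∃ L : Finset (HeightOneSpectrum (𝓞 K)), L ⊆ J ∧ L.Nonempty ∧ ∃ h : AbsGal K,
    (∀ χ : AbsGal K →* Multiplicative (ZMod p), UnramifiedOutside p ((↑J ∪ E) \ ↑L) χ →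
      χ h = 1) ∧
    ∀ v ∈ L, ∀ χ : AbsGal K →* Multiplicative (ZMod p),
      UnramifiedOutside p ((↑J ∪ E) \ {v}) χ → χ h = 1 → ∀ σ : AbsGal K, Frobenius v σ → χ σ = 1

/-- `K` has no extension with group `ℤ/p` that is unramified outside `E` (at the real places
too) -/
def NoExtension (p : ℕ) (E : Set (HeightOneSpectrum (𝓞 K))) : Prop :=
  ∀ χ : AbsGal K →* Multiplicative (ZMod p), UnramifiedOutside p E χ → ∀ g, χ g = 1

/-- `K` has at most one extension with group `ℤ/p` that is unramified outside `E`: if `χ` and `χ'`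
are homomorphisms to `ℤ/p` unramified outside `E` and `χ` is not trivial, then `χ'` is trivial on
the kernel of `χ`. -/
def AtMostOneExtension (p : ℕ) (E : Set (HeightOneSpectrum (𝓞 K))) : Prop :=
  ∀ χ χ' : AbsGal K →* Multiplicative (ZMod p), UnramifiedOutside p E χ →
    UnramifiedOutside p E χ' → (∃ h, χ h ≠ 1) → ∀ g, χ g = 1 → χ' g = 1

/-- `g` fixes all roots of unity of `p`-power order -/
def FixesRootsOfUnity (p : ℕ) (g : AbsGal K) : Prop :=
  ∀ (k : ℕ) (z : AlgebraicClosure K), z ^ p ^ k = 1 → g z = z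

variable {A : Type} [CommRing A] {n : ℕ}

/-- `M` is congruent to the identity matrix modulo `p ^ m` -/
def CongruentOne (p m : ℕ) (M : Matrix (Fin n) (Fin n) A) : Prop :=
  ∀ i j, (p : A) ^ m ∣ (M - 1) i j

/-- every `ρ g` is unipotent modulo the maximal ideal -/
def ResiduallyUnipotent [IsLocalRing A] (ρ : AbsGal K →* GL (Fin n) A) : Prop :=
  ∀ g, ∃ M : ℕ, ∀ i j, (((ρ g : Matrix (Fin n) (Fin n) A) - 1) ^ M) i j ∈ maximalIdeal A

/-! ### Translation -/

open Pool.Agent.V11248.FM in
theorem unramifiedOutside_of {p : ℕ} {D D' : Set (HeightOneSpectrum (𝓞 K))} (hD : D ⊆ D')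
    {χ : AbsGal K →* Multiplicative (ZMod p)} (h : UO p D χ) : UnramifiedOutside p D' χ := by
  refine ⟨h.open_ker, fun v hv P hP τ hτ => h.inertia P hP.1 (fun w hw hPw => hv ?_) τ hτ, h.real⟩
  have h1 : v = w := HeightOneSpectrum.ext (hP.2.symm.trans hPw)
  rw [h1]
  exact hD hw

open Pool.Agent.V11248.FM in
theorem frobenius_of {v : HeightOneSpectrum (𝓞 K)} {σ : AbsGal K} (h : IsFr v σ) :
    Frobenius v σ := by
  obtain ⟨P, hP, hPv, hσ⟩ := h
  exact ⟨P, ⟨hP, hPv⟩, hσ⟩

end

/-- The theorem. -/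
theorem result (K : Type) [Field K] [NumberField K] (p : ℕ) [Fact p.Prime] (m : ℕ)
    (hm : 2 < p ^ m) (S : Finset (HeightOneSpectrum (𝓞 K)))
    (hS : ∀ v ∈ S, p ^ m ∣ norm v - 1 ∧ ¬ p ^ (m + 1) ∣ norm v - 1)
    (E : Set (HeightOneSpectrum (𝓞 K)))
    (hJ : ∀ J ⊆ S, J.Nonempty → SparselyLinked p E J ∨ RankOne p E J)
    (A : Type) [CommRing A] [IsLocalRing A] [IsNoetherianRing A] [TopologicalSpace A]
    (hA : IsAdic (maximalIdeal A)) (hpA : (p : A) ∈ maximalIdeal A)
    (hreg : ∀ a : A, (p : A) * a = 0 → a = 0) (n : ℕ)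
    (ρ : AbsGal K →* GL (Fin n) A) (hρ : Continuous ρ)
    (hρ1 : (∀ g, CongruentOne p m (ρ g : Matrix (Fin n) (Fin n) A)) ∨
      (NoExtension p E ∧ ResiduallyUnipotent ρ ∧ (p = 2 → ∀ c, c * c = 1 → ρ c = 1) ∧
        ∀ v, v ∉ E → ∀ P, Above P v → ∀ τ, Inertia P τ →
          CongruentOne p m (ρ τ : Matrix (Fin n) (Fin n) A)))
    (hur : ∀ v, v ∉ S → v ∉ E → (Divides v p ∨ p ^ m ∣ norm v - 1) → UnramifiedAt ρ v) :
    (∀ v, v ∉ E → UnramifiedAt ρ v) ∧ (∀ c, c * c = 1 → ρ c = 1) ∧
    (NoExtension p E → ∀ g, ρ g = 1) ∧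
    (AtMostOneExtension p E → (∀ g g', ρ g * ρ g' = ρ g' * ρ g) ∧
      ((∀ v, Divides v p → v ∈ E) → ∀ g, FixesRootsOfUnity p g → ρ g = 1)) := by
  have hm1 : 1 ≤ m := by
    rcases Nat.eq_zero_or_pos m with h | h
    · rw [h, pow_zero] at hm
      omega
    · exact h
  have hpS : ∀ v ∈ S, ¬ Divides v p := by
    intro v hv hpv
    obtain ⟨d, hd⟩ := (dvd_pow_self p (by omega : m ≠ 0)).trans (hS v hv).1
    have h2 : 2 ≤ norm v := V11248.FM.two_le_nm v
    have h4 : norm v = p * d + 1 := by omega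
    have h5 : (norm v : 𝓞 K) ∈ v.asIdeal := Ideal.absNorm_mem _
    rw [h4, Nat.cast_add, Nat.cast_mul, Nat.cast_one] at h5
    have h6 : (1 : 𝓞 K) ∈ v.asIdeal := by
      have h7 := v.asIdeal.sub_mem h5 (v.asIdeal.mul_mem_right (d : 𝓞 K) hpv)
      rwa [add_sub_cancel_left] at h7
    exact v.isPrime.ne_top ((Ideal.eq_top_iff_one _).2 h6)
  have hno : NoExtension (K := K) p E → ∀ χ : AbsGal K →* Multiplicative (ZMod p),
      V11248.FM.UO p E χ → ∀ g, χ g = 1 := fun h χ hχ =>
    h χ (unramifiedOutside_of subset_rfl hχ)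
  have hadm : ∀ J ⊆ S, J.Nonempty → V11248.FM.Row p E J ∨ V11248.FM.Rank p E J := by
    intro J hJS hJne
    rcases hJ J hJS hJne with ⟨v, hv, w, hw, hvw⟩ | ⟨L, hLJ, hLne, h, hh1, hh2⟩
    · refine Or.inl ⟨v, hv, w, hw, fun χ hχ σ hσ =>
        hvw χ (unramifiedOutside_of (fun x hx => ?_) hχ) σ (frobenius_of hσ)⟩
      refine ⟨hx.1, fun hx' => ?_⟩
      rcases hx' with hx' | hx'
      · exact hx.2.1 hx'
      · exact hx.2.2 hx'
    · refine Or.inr ⟨L, hLJ, hLne, h, fun χ hχ => hh1 χ (unramifiedOutside_of ?_ hχ),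
        fun v hv χ hχ hχh σ hσ =>
          hh2 v hv χ (unramifiedOutside_of ?_ hχ) hχh σ (frobenius_of hσ)⟩
      · rintro x ⟨h1, h2⟩
        exact ⟨h1, h2⟩
      · rintro x ⟨h1, h2⟩
        exact ⟨h1, h2⟩
  have hur' : ∀ (P : Ideal (ZBar K)) (v : HeightOneSpectrum (𝓞 K)), P.IsMaximal →
      W571.FM.cm P = v.asIdeal → v ∉ E →
      ((p : 𝓞 K) ∈ v.asIdeal ∨ v ∉ S ∧ p ^ m ∣ V11248.FM.nm v - 1) → ∀ τ : AbsGal K,
        W569.FM.InInertia P τ → ρ τ = 1 := by
    intro P v hP hPv hvE h τ hτ
    rcases h with h | ⟨hvS, h⟩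
    · exact hur v (fun hvS => hpS v hvS h) hvE (Or.inl h) P ⟨hP, hPv⟩ τ hτ
    · exact hur v hvS hvE (Or.inr h) P ⟨hP, hPv⟩ τ hτ
  have hcts : ∀ N : ℕ, ∀ᶠ g in nhds (1 : AbsGal K), V11248.FM.MJ (maximalIdeal A ^ N)
      ((ρ g : Matrix (Fin n) (Fin n) A) - 1) := fun N => V11248.FM.cts_memN hA hρ N
  obtain ⟨h1, h2, h3, h4, h5⟩ := V11248.FM.main (K := K) (ρ := ρ) hpA hreg hm S hS E hadm
    hcts (by
      rcases hρ1 with h | ⟨h5, h6, h7, h8⟩
      · exact Or.inl h
      · refine Or.inr ⟨hno h5, h6, h7, fun P hP hPE τ hτ => ?_⟩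
        exact h8 (V11248.FM.place hP) (fun h => hPE _ h rfl) P ⟨hP, rfl⟩ τ hτ) hur'
  refine ⟨fun v hv P hP τ hτ => h2 P hP.1 (fun w hw hPw => hv ?_) τ hτ, h1,
    fun h => h3 (hno h), fun h => ⟨h4 fun χ χ' hχ hχ' => h χ χ'
      (unramifiedOutside_of subset_rfl hχ) (unramifiedOutside_of subset_rfl hχ'),
      fun hE g hg => V11248.FM.cyc_of hpA E hE (fun χ χ' hχ hχ' => h χ χ'
        (unramifiedOutside_of subset_rfl hχ) (unramifiedOutside_of subset_rfl hχ'))
        hcts h5 h1 h2 g hg⟩⟩
  have h5 : v = w := HeightOneSpectrum.ext (hP.2.symm.trans hPw)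
  rw [h5]
  exact hw

end Pool.Agent.Results.MP_f68ac8_nt.TameNumberFields
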